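import Pool.Agent.P8H31.PW.Stm

/-!
# Package PWV/GSUM (for helper31)
-/

set_option autoImplicit false

open Finset

namespace Pool.Agent.P8H88.PWV

open Pool.Agent.P8H31.PW

theorem two_delta {N u v : ℕ} (hu : u ∈ range N) (hv : v ∈ range N) :
    ∑ c ∈ range N, ∑ d ∈ range N, (if u = c ∧ v = d then (1 : ℝ) else 0) = 1 := by
  rw [Finset.sum_eq_single u]
  · rw [Finset.sum_eq_single v]
    · rw [if_pos ⟨rfl, rfl⟩]
    · intro d _ hd
      exact if_neg fun h => hd h.2.symm
    · intro h
      exact absurd hv h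
  · intro c _ hc
    exact Finset.sum_eq_zero fun d _ => if_neg fun h => hc h.1.symm
  · intro h
    exact absurd hu h

theorem gsum : S_GSUM := by
  intro N hN
  have h0 : ∀ a b c d : ℕ, (if a + b = c + d then ((if a + b = 0 then (1 : ℝ) else 0) +
      (if a = c ∧ b = d then 1 else 0) + (if a = d ∧ b = c then 1 else 0)) else 0) =
      (if 0 = a ∧ 0 = b then 1 else 0) * (if 0 = c ∧ 0 = d then 1 else 0) +
      (if a = c ∧ b = d then 1 else 0) + (if b = c ∧ a = d then 1 else 0) := by
    intro a b c d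
    by_cases h : a + b = c + d
    · rw [if_pos h]
      congr 1
      · congr 1
        by_cases h1 : a + b = 0
        · rw [if_pos h1, if_pos ⟨by omega, by omega⟩, if_pos ⟨by omega, by omega⟩, mul_one]
        · rw [if_neg h1, if_neg (by omega), zero_mul]
      · by_cases h1 : a = d ∧ b = c
        · rw [if_pos h1, if_pos ⟨h1.2, h1.1⟩]
        · rw [if_neg h1, if_neg fun h2 => h1 ⟨h2.2, h2.1⟩]
    · rw [if_neg h, if_neg (show ¬ (a = c ∧ b = d) by omega),
        if_neg (show ¬ (b = c ∧ a = d) by omega)]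
      by_cases h1 : 0 = a ∧ 0 = b
      · rw [if_neg (show ¬ (0 = c ∧ 0 = d) by omega), mul_zero]
        norm_num
      · rw [if_neg h1, zero_mul]
        norm_num
  simp only [h0, Finset.sum_add_distrib, ← Finset.mul_sum]
  have hz : (0 : ℕ) ∈ range N := mem_range.2 hN
  have h1 : ∑ a ∈ range N, ∑ b ∈ range N, (if 0 = a ∧ 0 = b then (1 : ℝ) else 0) *
      ∑ c ∈ range N, ∑ d ∈ range N, (if 0 = c ∧ 0 = d then (1 : ℝ) else 0) = 1 := by
    rw [two_delta hz hz]
    simp only [mul_one]
    exact two_delta hz hz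
  have h2 : ∑ a ∈ range N, ∑ b ∈ range N, ∑ c ∈ range N, ∑ d ∈ range N,
      (if a = c ∧ b = d then (1 : ℝ) else 0) = (N : ℝ) ^ 2 := by
    rw [Finset.sum_congr rfl fun a ha => Finset.sum_congr rfl fun b hb => two_delta ha hb]
    simp only [Finset.sum_const, card_range, nsmul_eq_mul, mul_one]
    ring
  have h3 : ∑ a ∈ range N, ∑ b ∈ range N, ∑ c ∈ range N, ∑ d ∈ range N,
      (if b = c ∧ a = d then (1 : ℝ) else 0) = (N : ℝ) ^ 2 := by
    rw [Finset.sum_congr rfl fun a ha => Finset.sum_congr rfl fun b hb => two_delta hb ha]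
    simp only [Finset.sum_const, card_range, nsmul_eq_mul, mul_one]
    ring
  rw [h1, h2, h3]
  ring

end Pool.Agent.P8H88.PWV
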